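import Pool.Agent.Lib_helper9.FPP.V2

/-! # First-passage percolation on the two-dimensional torus: the variance of the shortest winding
loop diverges

For `d = 2` and every law `F` on `[0, ∞)` with a finite second moment, `F({0}) < p_c(2)`, and whose
atom at the infimum `r` of its support is smaller than `p_c(2)` (automatic if `r = 0`), the variance
of the minimal passage time of a closed path of the torus `(ℤ/n)^2` of winding number one tends to
infinity with `n`.
-/

set_option autoImplicit false

open MeasureTheory ProbabilityTheory Filter
open Pool.Agent.Lib_helper9.FPP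

namespace Pool.Agent.Results.MP_a5a93b_pr.PlanarTorus

/-- Q1 for `d = 2`: the variance of `T(Γ_n)` tends to infinity for every admissible law `F` whose
atom at the infimum `r` of the support is smaller than `p_c(2)` (no condition if `r = 0`). -/
theorem result (F : Measure ℝ) [IsProbabilityMeasure F]
    (hpos : F (Set.Iio 0) = 0)
    (h2 : Integrable (fun y : ℝ => y ^ 2) F)
    (h0 : F.real {0} < pc 2)
    (r : ℝ) (hr0 : F (Set.Iio r) = 0) (hr : ∀ ε > 0, 0 < F (Set.Iio (r + ε)))
    (hatom : 0 < r → F.real {r} < pc 2) :
    Tendsto (fun n : ℕ =>
        variance (loopTime 2 (n + 1)) (Measure.pi (fun _ : TEdge 2 (n + 1) => F)))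
      atTop atTop := by
  apply v2 F hpos h2 r hr0 hr
  rcases lt_trichotomy 0 r with h | h | h
  · exact hatom h
  · rw [← h]; exact h0
  · exfalso
    have h1 := hr (-r) (by linarith)
    rw [add_neg_cancel] at h1
    exact h1.ne' hpos

end Pool.Agent.Results.MP_a5a93b_pr.PlanarTorus
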